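import Pool.Agent.helper46.ESM.Spec

/-!
# es:RES
-/

set_option autoImplicit false

namespace Pool.Agent.helper46.ESM

open Subgroup Pool.Agent.helper80.EN

universe u

lemma RES_le (P : Type u) [Group P] (N : Subgroup P) [N.Normal] (h : Group.IsNilpotent (P ⧸ N)) :
    ∃ n, (⊤ : Subgroup P).lowerCentralSeries n ≤ N := by
  obtain ⟨n, hn⟩ := Subgroup.nilpotent_iff_lowerCentralSeries.mp h
  refine ⟨n, ?_⟩
  have h1 := Subgroup.map_lowerCentralSeries (⊤ : Subgroup P) (QuotientGroup.mk' N) n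
  rw [Subgroup.map_top_of_surjective _ (QuotientGroup.mk'_surjective N), hn,
    Subgroup.map_eq_bot_iff, QuotientGroup.ker_mk'] at h1
  exact h1

theorem RES (hNIL : NIL_stmt.{u}) (hQNL : QNL_stmt.{u}) : RES_stmt.{u} := by
  intro P _ hfg hgen hnn hN hq
  refine ⟨hNIL P hfg hgen (nres P) hN hq, ?_, ?_⟩
  · intro hbot
    apply hnn
    obtain ⟨n, hn⟩ := RES_le P (nres P) hq
    rw [hbot, le_bot_iff] at hn
    exact Subgroup.nilpotent_iff_lowerCentralSeries.mpr ⟨n, hn⟩
  · apply le_antisymm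
    · exact Subgroup.commutator_le_left _ _
    · obtain ⟨n, hn⟩ := RES_le P ⁅nres P, nres P⁆ (hQNL P hfg hgen (nres P) hN hq)
      exact le_trans (iInf_le _ n) hn

end Pool.Agent.helper46.ESM
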